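import Mathlib

/-!
# Neighbor-locating chromatic number and paths of the same diameter (MP_fdbc88_co)

There is a connected graph `G` on 61 vertices with `χ_NL(G) ≤ 5` and diameter at least `50`, while
no path on at least `51` vertices has a neighbor-locating colouring with `5` colours.
-/

namespace Pool.Agent.Results.MP_fdbc88_co.NLDiameter

/-- Neighbor-locating colouring: proper, and any two distinct vertices of the same colour have
different sets of colours on their neighbourhoods. -/
def IsNL {V : Type} (G : SimpleGraph V) {k : ℕ} (c : V → Fin k) : Prop :=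
  (∀ u v, G.Adj u v → c u ≠ c v) ∧
    ∀ u v, u ≠ v → c u = c v → c '' G.neighborSet u ≠ c '' G.neighborSet v

/-- Neighbor-locating chromatic number. -/
noncomputable def chiNL {V : Type} (G : SimpleGraph V) : ℕ :=
  sInf {k | ∃ c : V → Fin k, IsNL G c}

theorem mono {V : Type} (G : SimpleGraph V) {k l : ℕ} (h : k ≤ l) (c : V → Fin k)
    (hc : IsNL G c) : IsNL G (fun v => Fin.castLE h (c v)) := by
  refine ⟨fun u v huv e => hc.1 u v huv (Fin.castLE_injective h e), ?_⟩
  intro u v huv e he
  refine hc.2 u v huv (Fin.castLE_injective h e) ?_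
  have h1 : ∀ s : Set V, (fun v => Fin.castLE h (c v)) '' s = Fin.castLE h '' (c '' s) := by
    intro s; rw [Set.image_image]
  rw [h1, h1] at he
  exact Set.image_injective.2 (Fin.castLE_injective h) he

theorem inj_NL {m : ℕ} (G : SimpleGraph (Fin m)) (c : Fin m → Fin m)
    (hc : Function.Injective c) : IsNL G c :=
  ⟨fun u v h e => h.ne (hc e), fun u v h e => absurd (hc e) h⟩

/-! ### Paths -/

/-- the possible pairs (colour, colour set of the neighbourhood) on a path -/
def pairs : Finset (Fin 5 × Finset (Fin 5)) :=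
  Finset.univ.filter fun p => p.1 ∉ p.2 ∧ 1 ≤ p.2.card ∧ p.2.card ≤ 2

theorem pairs_card : pairs.card = 50 := by decide +kernel

open Classical in
theorem path_le {m : ℕ} (hm : 2 ≤ m) (c : Fin m → Fin 5) (hc : IsNL (SimpleGraph.pathGraph m) c) :
    m ≤ 50 := by
  let N : Fin m → Finset (Fin m) := fun v =>
    Finset.univ.filter fun u => (SimpleGraph.pathGraph m).Adj v u
  let f : Fin m → Fin 5 × Finset (Fin 5) := fun v => (c v, (N v).image c)
  have hN : ∀ v, (N v).card ≤ 2 := by
    intro v
    have hsub : (N v).image (fun u : Fin m => (u : ℕ)) ⊆ {(v : ℕ) + 1, (v : ℕ) - 1} := by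
      intro x hx
      simp only [N, Finset.mem_image, Finset.mem_filter, Finset.mem_univ, true_and,
        SimpleGraph.pathGraph_adj] at hx
      obtain ⟨u, hu, rfl⟩ := hx
      simp only [Finset.mem_insert, Finset.mem_singleton]
      omega
    have h1 := Finset.card_le_card hsub
    rw [Finset.card_image_of_injective _ Fin.val_injective] at h1
    exact h1.trans Finset.card_le_two
  have hNne : ∀ v, (N v).Nonempty := by
    intro v
    by_cases h : (v : ℕ) + 1 < m
    · exact ⟨⟨v + 1, h⟩, by simp [N, SimpleGraph.pathGraph_adj]⟩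
    · have := v.2
      exact ⟨⟨v - 1, by omega⟩, by
        simp only [N, SimpleGraph.pathGraph_adj, Finset.mem_filter, Finset.mem_univ, true_and]
        omega⟩
  have hmaps : Set.MapsTo f (Finset.univ : Finset (Fin m)) pairs := by
    intro v _
    simp only [f, pairs, Finset.coe_filter, Finset.mem_univ, true_and, Set.mem_ofPred_eq]
    refine ⟨?_, ?_, ?_⟩
    · simp only [N, Finset.mem_image, Finset.mem_filter, Finset.mem_univ, true_and, not_exists,
        not_and]
      intro u hu he
      exact hc.1 v u hu he.symm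
    · exact Finset.card_pos.2 ((hNne v).image c)
    · exact Finset.card_image_le.trans (hN v)
  have hinj : Set.InjOn f (Finset.univ : Finset (Fin m)) := by
    intro u _ v _ he
    by_contra huv
    simp only [f, Prod.mk.injEq] at he
    apply hc.2 u v huv he.1
    have h1 : ∀ w, c '' (SimpleGraph.pathGraph m).neighborSet w = ((N w).image c : Finset (Fin 5)) := by
      intro w
      ext x
      simp [N, SimpleGraph.mem_neighborSet]
    rw [h1, h1, he.2]
  have := Finset.card_le_card_of_injOn f hmaps hinj
  rwa [pairs_card, Finset.card_univ, Fintype.card_fin] at this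

theorem chiNL_path {m : ℕ} (hm : 51 ≤ m) : 6 ≤ chiNL (SimpleGraph.pathGraph m) := by
  by_contra hlt
  push Not at hlt
  have hne : {k | ∃ c : Fin m → Fin k, IsNL (SimpleGraph.pathGraph m) c}.Nonempty :=
    ⟨m, id, inj_NL _ _ Function.injective_id⟩
  obtain ⟨c, hc⟩ := Nat.sInf_mem hne
  have h5 : sInf {k | ∃ c : Fin m → Fin k, IsNL (SimpleGraph.pathGraph m) c} ≤ 5 := by
    unfold chiNL at hlt
    omega
  have := path_le (by omega) _ (mono _ h5 c hc)
  omega

/-! ### The graph -/

/-- adjacency from a smaller to a larger index: `0,…,50` form a path, and `51+j` is joined to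
`5j, 5j+1, 5j+2` -/
def adj0 (u v : ℕ) : Bool :=
  (Nat.ble v 50 && Nat.beq (u + 1) v) ||
    (Nat.ble 51 v && Nat.ble (5 * (v - 51)) u && Nat.ble u (5 * (v - 51) + 2))

/-- boolean adjacency -/
def adjB (u v : ℕ) : Bool := if Nat.blt u v then adj0 u v else (Nat.blt v u && adj0 v u)

/-- The graph on 61 vertices. -/
def G : SimpleGraph (Fin 61) where
  Adj u v := adjB u v = true
  symm := ⟨by
    have : ∀ u v : Fin 61, adjB u v = true → adjB v u = true := by decide +kernel
    exact this⟩
  loopless := ⟨by
    have : ∀ u : Fin 61, ¬ adjB u u = true := by decide +kernel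
    exact this⟩

/-- the colours, as base-5 digits -/
def colN : ℕ := 3182116488236349914591212654928442641279285

/-- the keys `32·colour + mask of the colours of the neighbours`, as base-160 digits -/
def keyN : ℕ := 179713310740411327968868658903862486207447420845214666009895477094801211373489951767218180968964017146871587168014451857679639389504500

/-- the colouring -/
def col (v : Fin 61) : Fin 5 := ⟨colN / 5 ^ (v : ℕ) % 5, Nat.mod_lt _ (by norm_num)⟩

/-- colour mask of the neighbours of `u` among a list -/
def msk (u : ℕ) : List (Fin 61) → ℕ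
  | [] => 0
  | v :: l => (if adjB u v then 1 <<< (col v : ℕ) else 0) ||| msk u l

theorem msk_testBit (u : ℕ) (l : List (Fin 61)) (i : ℕ) :
    (msk u l).testBit i = true ↔ ∃ v ∈ l, adjB u v = true ∧ (col v : ℕ) = i := by
  induction l with
  | nil => simp [msk]
  | cons v l ih =>
    simp only [msk, Nat.testBit_or, Bool.or_eq_true, ih, List.mem_cons, exists_eq_or_imp]
    by_cases h : adjB u v = true
    · simp [h, Nat.one_shiftLeft, Nat.testBit_two_pow]
    · simp [h]

theorem key_ok : ∀ v : Fin 61,
    keyN / 160 ^ (v : ℕ) % 160 = 32 * (col v : ℕ) + msk v (List.finRange 61) := by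
  decide +kernel

theorem key_inj : ∀ u v : Fin 61,
    keyN / 160 ^ (u : ℕ) % 160 = keyN / 160 ^ (v : ℕ) % 160 → u = v := by
  decide +kernel

theorem col_proper : ∀ u v : Fin 61, adjB u v = true → col u ≠ col v := by
  decide +kernel

theorem col_NL : IsNL G col := by
  refine ⟨col_proper, ?_⟩
  intro u v huv hc he
  apply huv
  apply key_inj
  rw [key_ok, key_ok, hc]
  congr 1
  apply Nat.eq_of_testBit_eq
  intro i
  rw [Bool.eq_iff_iff, msk_testBit, msk_testBit]
  have key : ∀ a b : Fin 61, col '' G.neighborSet a = col '' G.neighborSet b →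
      (∃ v ∈ List.finRange 61, adjB a v = true ∧ (col v : ℕ) = i) →
      (∃ v ∈ List.finRange 61, adjB b v = true ∧ (col v : ℕ) = i) := by
    rintro a b hab ⟨w, _, hw, rfl⟩
    have : col w ∈ col '' G.neighborSet b := hab ▸ ⟨w, hw, rfl⟩
    obtain ⟨w', hw', e⟩ := this
    exact ⟨w', List.mem_finRange _, hw', congrArg Fin.val e⟩
  exact ⟨key u v he, key v u he.symm⟩

theorem chiNL_G : chiNL G ≤ 5 := Nat.sInf_le ⟨col, col_NL⟩

/-- level function -/
def lev (v : Fin 61) : ℕ := if (v : ℕ) ≤ 50 then v else 5 * (v - 51) + 1

theorem lev_adj : ∀ u v : Fin 61, adjB u v = true → lev v ≤ lev u + 1 := by decide +kernel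

theorem lev_walk {u v : Fin 61} (p : G.Walk u v) : lev v ≤ lev u + p.length := by
  induction p with
  | nil => simp
  | cons h p ih =>
    have := lev_adj _ _ h
    rw [SimpleGraph.Walk.length_cons]
    omega

theorem down : ∀ v : Fin 61, v = 0 ∨ ∃ u : Fin 61, adjB v u = true ∧ (u : ℕ) < v := by
  decide +kernel

theorem reach0 : ∀ v : Fin 61, G.Reachable v 0 := by
  intro v
  induction h : (v : ℕ) using Nat.strong_induction_on generalizing v with
  | _ n ih =>
    rcases down v with h0 | ⟨u, hu, hlt⟩
    · rw [h0]
    · exact (SimpleGraph.Adj.reachable (G := G) hu).trans (ih u (by omega) u rfl)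

theorem G_conn : G.Connected := by
  have : Nonempty (Fin 61) := ⟨0⟩
  exact SimpleGraph.Connected.mk fun u v => (reach0 u).trans (reach0 v).symm

theorem diam_G : 50 ≤ G.diam := by
  have h1 : G.ediam ≠ ⊤ := by
    have : Nonempty (Fin 61) := ⟨0⟩
    exact SimpleGraph.connected_iff_ediam_ne_top.1 G_conn
  have h2 := SimpleGraph.dist_le_diam h1 (u := 0) (v := 50)
  obtain ⟨p, hp⟩ := (G_conn 0 50).exists_walk_length_eq_dist
  have h3 := lev_walk p
  have h4 : lev 50 = 50 := by decide
  have h5 : lev 0 = 0 := by decide
  omega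

/-- There is a connected graph `G` (on 61 vertices, of diameter `d ≥ 50`) whose neighbor-locating
chromatic number is smaller than that of the path on `d + 1` vertices. -/
theorem result :
    ∃ G : SimpleGraph (Fin 61), G.Connected ∧
      chiNL G < chiNL (SimpleGraph.pathGraph (G.diam + 1)) :=
  ⟨G, G_conn, lt_of_le_of_lt chiNL_G (chiNL_path (Nat.succ_le_succ diam_G))⟩

end Pool.Agent.Results.MP_fdbc88_co.NLDiameter
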